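import Mathlib.RingTheory.AdjoinRoot
import Mathlib.Tactic

set_option autoImplicit false

namespace Pool.Agent.R832.BT

open Polynomial

universe u v

lemma cube_root {A : Type u} [CommRing A] (d : A) :
    (AdjoinRoot.root (X ^ 3 + C d)) ^ 3 + AdjoinRoot.of (X ^ 3 + C d) d = 0 := by
  have h := AdjoinRoot.eval₂_root (X ^ 3 + C d)
  rw [eval₂_add, eval₂_pow, eval₂_X, eval₂_C] at h
  exact h

lemma lift_cond {A : Type u} [CommRing A] {B : Type v} [CommRing B] (i : A →+* B) (a : B) (d : A)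
    (h : a ^ 3 + i d = 0) : (X ^ 3 + C d : A[X]).eval₂ i a = 0 := by
  rw [eval₂_add, eval₂_pow, eval₂_X, eval₂_C]
  exact h

end Pool.Agent.R832.BT
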