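import Pool.Agent.R832.BT.Defs

set_option autoImplicit false

namespace Pool.Agent.R832.BT

open MvPolynomial

universe u v

section Hom

variable {R : Type u} [CommRing R] {S : Type v} [CommRing S]

/-- homs from the chart -/
noncomputable def chartHom (s : R) (ι : R →+* S) (a x c y b : S)
    (h1 : a ^ 3 = 3 * c + 3 * ι s * c ^ 2 + (ι s) ^ 2 * c ^ 3)
    (h2 : x ^ 3 + y ^ 3 - 1 = ι s * b) : Chart (J s) →+* S :=
  Ideal.Quotient.lift _ (eval₂Hom ι ![a, x, c, y, b, 1]) (by
    have hle : J s ⊔ Ideal.span {X 5 - 1} ≤ RingHom.ker (eval₂Hom ι ![a, x, c, y, b, 1]) := by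
      refine sup_le ?_ ?_
      · unfold J
        rw [Ideal.span_le]
        rintro f (rfl | rfl)
        · simp only [SetLike.mem_coe, RingHom.mem_ker, G1, map_sub, map_pow, map_add, map_mul,
            coe_eval₂Hom, eval₂_X, eval₂_C, map_ofNat]
          simp
          linear_combination h1
        · simp only [SetLike.mem_coe, RingHom.mem_ker, G2, map_sub, map_pow, map_add, map_mul,
            coe_eval₂Hom, eval₂_X, eval₂_C]
          simp
          linear_combination h2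
      · rw [Ideal.span_le]
        rintro f (rfl : f = _)
        simp
    intro f hf
    exact RingHom.mem_ker.1 (hle hf))

/-- classes of the variables -/
noncomputable def vr (s : R) (i : Fin 6) : Chart (J s) := Ideal.Quotient.mk _ (X i)

/-- classes of the constants -/
noncomputable def cn (s : R) : R →+* Chart (J s) :=
  (Ideal.Quotient.mk _).comp C

lemma chartHom_vr (s : R) (ι : R →+* S) (a x c y b : S)
    (h1 : a ^ 3 = 3 * c + 3 * ι s * c ^ 2 + (ι s) ^ 2 * c ^ 3)
    (h2 : x ^ 3 + y ^ 3 - 1 = ι s * b) (i : Fin 6) :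
    chartHom s ι a x c y b h1 h2 (vr s i) = ![a, x, c, y, b, 1] i := by
  unfold chartHom vr
  rw [Ideal.Quotient.lift_mk]
  simp

lemma chartHom_cn (s : R) (ι : R →+* S) (a x c y b : S)
    (h1 : a ^ 3 = 3 * c + 3 * ι s * c ^ 2 + (ι s) ^ 2 * c ^ 3)
    (h2 : x ^ 3 + y ^ 3 - 1 = ι s * b) (r : R) :
    chartHom s ι a x c y b h1 h2 (cn s r) = ι r := by
  unfold chartHom cn
  rw [RingHom.comp_apply, Ideal.Quotient.lift_mk]
  simp

lemma chart_ext {s : R} {f g : Chart (J s) →+* S} (hC : ∀ r, f (cn s r) = g (cn s r))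
    (hX : ∀ i, f (vr s i) = g (vr s i)) : f = g := by
  apply Ideal.Quotient.ringHom_ext
  apply MvPolynomial.ringHom_ext
  · intro r
    exact hC r
  · intro i
    exact hX i

lemma vr5 (s : R) : vr s 5 = 1 := by
  unfold vr
  rw [← map_one (Ideal.Quotient.mk (J s ⊔ Ideal.span {X 5 - 1}))]
  exact Ideal.Quotient.eq.2 (Ideal.mem_sup_right (Ideal.subset_span rfl))

lemma rel1 (s : R) : (vr s 0) ^ 3 = 3 * vr s 2 + 3 * cn s s * (vr s 2) ^ 2
    + (cn s s) ^ 2 * (vr s 2) ^ 3 := by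
  have h : Ideal.Quotient.mk (J s ⊔ Ideal.span {X 5 - 1}) (G1 s) = 0 :=
    Ideal.Quotient.eq_zero_iff_mem.2 (Ideal.mem_sup_left (Ideal.subset_span (by simp)))
  have h5 := vr5 s
  unfold vr at h5 ⊢
  simp only [G1, map_sub, map_pow, map_add, map_mul, map_ofNat, h5] at h
  simp only [cn, RingHom.comp_apply]
  linear_combination h

lemma rel2 (s : R) : (vr s 1) ^ 3 + (vr s 3) ^ 3 - 1 = cn s s * vr s 4 := by
  have h : Ideal.Quotient.mk (J s ⊔ Ideal.span {X 5 - 1}) (G2 s) = 0 :=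
    Ideal.Quotient.eq_zero_iff_mem.2 (Ideal.mem_sup_left (Ideal.subset_span (by simp)))
  have h5 := vr5 s
  unfold vr at h5 ⊢
  simp only [G2, map_sub, map_pow, map_add, map_mul, h5] at h
  simp only [cn, RingHom.comp_apply]
  linear_combination h

end Hom

section Iso

variable {k : Type u} [Field k]

/-- the chart of the fibre at `s ≠ 0` and of the fibre at `0` are isomorphic -/
lemma chart_iso [IsAlgClosed k] (h3 : (3 : k) ≠ 0) (s : k) (hs : s ≠ 0) :
    Nonempty (Chart (J s) ≃ₐ[k] Chart (J (0 : k))) := by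
  obtain ⟨r, hr⟩ := IsAlgClosed.exists_pow_nat_eq s (n := 3) (by norm_num)
  have hr0 : r ≠ 0 := by
    rintro rfl
    apply hs
    rw [← hr]
    simp
  -- Chart (J 0) → Chart (J s)
  have hr' : (cn s r) ^ 3 = cn s s := by rw [← map_pow, hr]
  have h3' : cn s 3 * cn s (3⁻¹) = 1 := by rw [← map_mul, mul_inv_cancel₀ h3, map_one]
  have e3 : cn s 3 = 3 := map_ofNat (cn s) 3
  have E1 := rel1 s
  have E2 := rel2 s
  let Φ : Chart (J (0 : k)) →+* Chart (J s) :=
    chartHom 0 (cn s) (vr s 1) (-(cn s r * vr s 0)) (cn s (3⁻¹) * (vr s 1) ^ 3) (1 + cn s s * vr s 2)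
      (vr s 3) (by
        rw [map_zero]
        rw [e3] at h3'
        linear_combination (-(vr s 1) ^ 3) * h3') (by
        rw [map_zero]
        linear_combination (-(vr s 0) ^ 3) * hr' - cn s s * E1)
  have hss : cn (0 : k) s * cn (0 : k) s⁻¹ = 1 := by rw [← map_mul, mul_inv_cancel₀ hs, map_one]
  have hrr : cn (0 : k) r * cn (0 : k) r⁻¹ = 1 := by rw [← map_mul, mul_inv_cancel₀ hr0, map_one]
  have hr2 : (cn (0 : k) r) ^ 3 = cn (0 : k) s := by rw [← map_pow, hr]
  have F1 := rel1 (0 : k)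
  have F2 := rel2 (0 : k)
  rw [map_zero] at F1 F2
  have hr3 : (cn (0 : k) r⁻¹) ^ 3 = cn (0 : k) s⁻¹ := by rw [← map_pow, inv_pow, hr]
  let Ψ : Chart (J s) →+* Chart (J (0 : k)) :=
    chartHom s (cn 0) (-(cn (0 : k) r⁻¹ * vr (0 : k) 1)) (vr (0 : k) 0)
      (cn (0 : k) s⁻¹ * (vr (0 : k) 3 - 1)) (vr (0 : k) 4)
      (cn (0 : k) s⁻¹ * ((vr (0 : k) 0) ^ 3 + (vr (0 : k) 4) ^ 3 - 1)) (by
        generalize cn (0 : k) s⁻¹ = si at *
        generalize cn (0 : k) s = ss at *
        generalize vr (0 : k) 1 = x at *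
        generalize vr (0 : k) 3 = y at *
        generalize cn (0 : k) r⁻¹ = ri at *
        have A1 : ss * (si * (y - 1)) = y - 1 := by linear_combination (y - 1) * hss
        have A2 : 3 * (si * (y - 1)) + 3 * ss * (si * (y - 1)) ^ 2
            + ss ^ 2 * (si * (y - 1)) ^ 3 = si * (y ^ 3 - 1) := by
          linear_combination (3 * si * (y - 1) ^ 2 + si * (y - 1) ^ 3 * (ss * si + 1)) * hss
        rw [A2]
        linear_combination (-x ^ 3) * hr3 + (-si) * F2) (by
        linear_combination (-((vr (0 : k) 0) ^ 3 + (vr (0 : k) 4) ^ 3 - 1)) * hss)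
  have hΦC : ∀ t, Φ (cn 0 t) = cn s t := fun t => chartHom_cn _ _ _ _ _ _ _ _ _ _
  have hΨC : ∀ t, Ψ (cn s t) = cn 0 t := fun t => chartHom_cn _ _ _ _ _ _ _ _ _ _
  have hΦX : ∀ i, Φ (vr 0 i) = _ := fun i => chartHom_vr _ _ _ _ _ _ _ _ _ i
  have hΨX : ∀ i, Ψ (vr s i) = _ := fun i => chartHom_vr _ _ _ _ _ _ _ _ _ i
  have c1 : Φ.comp Ψ = RingHom.id _ := by
    apply chart_ext
    · intro t
      rw [RingHom.comp_apply, hΨC, hΦC, RingHom.id_apply]
    · intro i
      have hrs : cn s r * cn s r⁻¹ = 1 := by rw [← map_mul, mul_inv_cancel₀ hr0, map_one]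
      have hsss : cn s s * cn s s⁻¹ = 1 := by rw [← map_mul, mul_inv_cancel₀ hs, map_one]
      rw [RingHom.comp_apply, hΨX, RingHom.id_apply]
      fin_cases i
      · simp [hΦC, hΦX]
        linear_combination (vr s 0) * hrs
      · simp [hΦX]
      · simp [hΦC, hΦX]
        linear_combination (vr s 2) * hsss
      · simp [hΦX]
      · simp [hΦC, hΦX]
        linear_combination (vr s 4) * hsss + cn s s⁻¹ * E2
      · simp [vr5]
  have c2 : Ψ.comp Φ = RingHom.id _ := by
    apply chart_ext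
    · intro t
      rw [RingHom.comp_apply, hΦC, hΨC, RingHom.id_apply]
    · intro i
      have h33 : cn (0 : k) 3 * cn (0 : k) (3⁻¹) = 1 := by
        rw [← map_mul, mul_inv_cancel₀ h3, map_one]
      have e33 : cn (0 : k) 3 = 3 := map_ofNat (cn (0 : k)) 3
      rw [e33] at h33
      rw [RingHom.comp_apply, hΦX, RingHom.id_apply]
      fin_cases i
      · simp [hΨX]
      · simp [hΨC, hΨX]
        linear_combination (vr 0 1) * hrr
      · simp [hΨC, hΨX]
        linear_combination (vr 0 2) * h33 + cn 0 3⁻¹ * F1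
      · simp [hΨC, hΨX]
        linear_combination (vr 0 3 - 1) * hss
      · simp [hΨX]
      · simp [vr5]
  exact ⟨AlgEquiv.ofRingEquiv (f := RingEquiv.ofRingHom Ψ Φ c2 c1) (fun t => hΨC t)⟩

end Iso

end Pool.Agent.R832.BT
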