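import Mathlib.NumberTheory.FLT.Polynomial
import Mathlib.RingTheory.Localization.FractionRing
import Mathlib.Tactic

set_option autoImplicit false

namespace Pool.Agent.R832.BT

open Polynomial

universe u

/-- Fermat cubic equation in `F[X]`: proportional to constants -/
lemma flt_one {F : Type u} [Field F] (h3 : (3 : F) ≠ 0) {f h g : F[X]} (hg : g ≠ 0)
    (e : f ^ 3 + h ^ 3 = g ^ 3) : ∃ a b : F, f = C a * g ∧ h = C b * g := by
  classical
  have key : ∀ f h : F[X], f = 0 → f ^ 3 + h ^ 3 = g ^ 3 → ∃ a b : F, f = C a * g ∧ h = C b * g := by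
    intro f h hf e
    subst hf
    have e1 : h ^ 3 = g ^ 3 := by rw [← e]; ring
    obtain ⟨q, hq⟩ : g ∣ h := (IsIntegrallyClosed.pow_dvd_pow_iff (by norm_num : 3 ≠ 0)).mp
      ⟨1, by rw [e1, mul_one]⟩
    have hq1 : q ^ 3 = 1 := by
      have : g ^ 3 * q ^ 3 = g ^ 3 * 1 := by rw [← mul_pow, ← hq, e1, mul_one]
      exact mul_left_cancel₀ (pow_ne_zero 3 hg) this
    have hu : IsUnit q := IsUnit.of_pow_eq_one hq1 (by norm_num)
    obtain ⟨r, -, hr⟩ := Polynomial.isUnit_iff.1 hu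
    exact ⟨0, r, by simp, by rw [hq, ← hr, mul_comm]⟩
  by_cases hf : f = 0
  · exact key f h hf e
  by_cases hh : h = 0
  · obtain ⟨a, b, h1, h2⟩ := key h f hh (by rw [← e]; ring)
    exact ⟨b, a, h2, h1⟩
  obtain ⟨d, a', b', c', ⟨ha, hb, hc⟩, ua, ub, uc⟩ :=
    fermatLastTheoremWith'_polynomial (k := F) (n := 3) le_rfl (by exact_mod_cast h3) f h g hf hh hg e
  obtain ⟨ra, hra, hra'⟩ := Polynomial.isUnit_iff.1 ua
  obtain ⟨rb, hrb, hrb'⟩ := Polynomial.isUnit_iff.1 ub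
  obtain ⟨rc, hrc, hrc'⟩ := Polynomial.isUnit_iff.1 uc
  have hrc0 : rc ≠ 0 := hrc.ne_zero
  refine ⟨ra / rc, rb / rc, ?_, ?_⟩
  · rw [ha, hc, ← hra', ← hrc', ← mul_assoc, ← C_mul, div_mul_cancel₀ _ hrc0]
  · rw [hb, hc, ← hrb', ← hrc', ← mul_assoc, ← C_mul, div_mul_cancel₀ _ hrc0]

/-- the same in two variables -/
lemma flt_two {F : Type u} [Field F] (h3 : (3 : F) ≠ 0) {f h g : F[X][X]} (hg : g ≠ 0)
    (e : f ^ 3 + h ^ 3 = g ^ 3) : ∃ a : F, f = C (C a) * g := by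
  set K := FractionRing F[X]
  set φ : F[X] →+* K := algebraMap F[X] K
  have hφ : Function.Injective φ := IsFractionRing.injective F[X] K
  have h3K : (3 : K) ≠ 0 := by
    have e0 : (3 : K) = φ (C 3) := by
      rw [show (C 3 : F[X]) = 3 from map_ofNat C 3]
      exact (map_ofNat φ 3).symm
    rw [e0, Ne, map_eq_zero_iff φ hφ, C_eq_zero]
    exact h3
  have hg' : g.map φ ≠ 0 := by rwa [Ne, Polynomial.map_eq_zero_iff hφ]
  obtain ⟨a, b, ha, hb⟩ := flt_one h3K hg' (f := f.map φ) (h := h.map φ)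
    (by rw [← Polynomial.map_pow, ← Polynomial.map_pow, ← Polynomial.map_add, e, Polynomial.map_pow])
  have hab : a ^ 3 + b ^ 3 = 1 := by
    have e2 : (f.map φ) ^ 3 + (h.map φ) ^ 3 = (g.map φ) ^ 3 := by
      rw [← Polynomial.map_pow, ← Polynomial.map_pow, ← Polynomial.map_add, e, Polynomial.map_pow]
    rw [ha, hb] at e2
    have e3 : C (a ^ 3 + b ^ 3) * (g.map φ) ^ 3 = C 1 * (g.map φ) ^ 3 := by
      rw [map_add, map_pow, map_pow, C_1, one_mul]
      linear_combination e2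
    exact C_injective (mul_right_cancel₀ (pow_ne_zero 3 hg') e3)
  set j := g.natDegree
  have hgj : g.coeff j ≠ 0 := by
    rw [Polynomial.coeff_natDegree]
    exact leadingCoeff_ne_zero.2 hg
  have hfj : φ (f.coeff j) = a * φ (g.coeff j) := by
    rw [← coeff_map, ha, coeff_C_mul, coeff_map]
  have hhj : φ (h.coeff j) = b * φ (g.coeff j) := by
    rw [← coeff_map, hb, coeff_C_mul, coeff_map]
  have e4 : (f.coeff j) ^ 3 + (h.coeff j) ^ 3 = (g.coeff j) ^ 3 := by
    apply hφ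
    rw [map_add, map_pow, map_pow, map_pow, hfj, hhj]
    linear_combination (φ (g.coeff j)) ^ 3 * hab
  obtain ⟨c, d, hc, hd⟩ := flt_one h3 hgj e4
  have hac : a = φ (C c) := by
    have h5 : a * φ (g.coeff j) = φ (C c) * φ (g.coeff j) := by
      rw [← hfj, hc, map_mul]
    exact mul_right_cancel₀ ((map_ne_zero_iff φ hφ).2 hgj) h5
  refine ⟨c, ?_⟩
  apply Polynomial.map_injective φ hφ
  rw [ha, hac, Polynomial.map_mul, map_C]

end Pool.Agent.R832.BT
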