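import Mathlib

/-!
Families of projective varieties over the affine line, birational trivializations, and the family
of the counterexample.
-/

set_option autoImplicit false

namespace Pool.Agent.R832.BT

open MvPolynomial

universe u

section Chart

variable {R : Type u} [CommRing R]

/-- The coordinate ring `R[x_0, ..., x_4] / I(x_0, ..., x_4, 1)` of the open set `x_5 ≠ 0` of the
closed subscheme of the projective space `P^5` over `R` given by the homogeneous ideal `I` of
`R[x_0, ..., x_5]` -/
abbrev Chart (I : Ideal (MvPolynomial (Fin 6) R)) : Type u :=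
  MvPolynomial (Fin 6) R ⧸ (I ⊔ Ideal.span {X 5 - 1})

/-- the ideal of the fibre of the closed subscheme of `P^5` over `Spec R` given by `I`, at the point
`b : R → k` -/
noncomputable abbrev fib {k : Type u} [CommRing k] (b : R →+* k) (I : Ideal (MvPolynomial (Fin 6) R)) :
    Ideal (MvPolynomial (Fin 6) k) :=
  I.map (MvPolynomial.map b)

lemma chart_le {k : Type u} [CommRing k] (b : R →+* k) (I : Ideal (MvPolynomial (Fin 6) R)) :
    I ⊔ Ideal.span {X 5 - 1} ≤ (fib b I ⊔ Ideal.span {X 5 - 1}).comap (MvPolynomial.map b) := by
  refine sup_le (le_trans Ideal.le_comap_map (Ideal.comap_mono le_sup_left)) ?_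
  rw [Ideal.span_le]
  rintro f (rfl : f = _)
  simp only [SetLike.mem_coe, Ideal.mem_comap, map_sub, map_X, map_one]
  exact Ideal.mem_sup_right (Ideal.subset_span rfl)

/-- restriction of the functions on the chart `x_5 ≠ 0` to the fibre at `b` -/
noncomputable def red {k : Type u} [CommRing k] (b : R →+* k)
    (I : Ideal (MvPolynomial (Fin 6) R)) : Chart I →+* Chart (fib b I) :=
  Ideal.quotientMap _ (MvPolynomial.map b) (chart_le b I)

/-- If the fibre at `b` is an integral scheme which is not contained in `x_5 = 0`: the local ring of
the total space at the generic point of this fibre (the functions on the chart `x_5 ≠ 0` which do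
not vanish identically on the fibre are inverted) -/
abbrev LocRing {k : Type u} [CommRing k] (b : R →+* k) (I : Ideal (MvPolynomial (Fin 6) R)) :
    Type u :=
  Localization ((nonZeroDivisors (Chart (fib b I))).comap (red b I))

end Chart

/-- homogeneous ideals: generated by homogeneous polynomials -/
def IsHomog {R : Type u} [CommRing R] (I : Ideal (MvPolynomial (Fin 6) R)) : Prop :=
  ∃ S : Set (MvPolynomial (Fin 6) R), (∀ f ∈ S, ∃ d : ℕ, f.IsHomogeneous d) ∧ I = Ideal.span S

open Polynomial in
/-- `I` is an ideal of a projective flat family `X ⊆ A^1 × P^5` over the affine line over `k`, all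
fibres of which are irreducible varieties (integral schemes, not contained in `x_5 = 0`), all
birational to each other. Over the principal ideal domain `k[X]` flat means torsion-free. -/
structure IsFamily {k : Type u} [Field k] (I : Ideal (MvPolynomial (Fin 6) k[X])) : Prop where
  homogeneous : IsHomog I
  flat : Module.Flat k[X] (MvPolynomial (Fin 6) k[X] ⧸ I)
  fib_prime : ∀ c : k, (fib (Polynomial.evalRingHom c) I).IsPrime
  fib_ne : ∀ c : k, (MvPolynomial.X 5 : MvPolynomial (Fin 6) k) ∉ fib (Polynomial.evalRingHom c) I
  birational : ∀ c d : k, Nonempty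
    (FractionRing (Chart (fib (Polynomial.evalRingHom c) I)) ≃ₐ[k]
      FractionRing (Chart (fib (Polynomial.evalRingHom d) I)))

open scoped TensorProduct in
/-- For a `k`-algebra `R'` with a point `b' : R' → k` and a field `K₀ ⊇ k`: the localization of
`R' ⊗ K₀` at the kernel of `R' ⊗ K₀ → K₀` given by `b'`. If `K₀` is the function field of a variety
`X_0` and `B' = Spec R'`, this is the local ring of `B' × X_0` at the generic point of
`{b'} × X_0`. -/
abbrev ConstRing {k : Type u} [Field k] (R' : Type u) [CommRing R'] [Algebra k R'] (b' : R' →ₐ[k] k)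
    (K₀ : Type u) [Field K₀] [Algebra k K₀] : Type u :=
  Localization ((nonZeroDivisors K₀).comap
    (Algebra.TensorProduct.lift ((Algebra.ofId k K₀).comp b') (AlgHom.id k K₀)
      (fun _ _ => Commute.all _ _)))

open Polynomial in
/-- A birational trivialization at the point `b` of the affine line of the family given by `I`,
where `K₀` is the function field of `X_0`. -/
structure Trivialization {k : Type u} [Field k] (I : Ideal (MvPolynomial (Fin 6) k[X])) (b : k)
    (K₀ : Type u) [Field K₀] [Algebra k K₀] where
  /-- the open neighbourhood `U` of `b` is given by `g ≠ 0` -/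
  g : k[X]
  mem : g.eval b ≠ 0
  /-- `B'` is the spectrum of the domain `R'` (it is affine, being finite over `U`) -/
  R' : Type u
  [commRing : CommRing R']
  [isDomain : IsDomain R']
  [algebra : Algebra k R']
  [algebraPoly : Algebra k[X] R']
  [tower : IsScalarTower k k[X] R']
  /-- the finite surjective morphism `B' → U` -/
  φ : Localization.Away g →ₐ[k[X]] R'
  finite : φ.toRingHom.Finite
  injective : Function.Injective φ
  /-- the point `b'` of `B'` -/
  b' : R' →ₐ[k] k
  comp_eq : b'.toRingHom.comp (algebraMap k[X] R') = Polynomial.evalRingHom b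
  /-- the isomorphism over `B'` of the local ring of `X ×_B B'` at the generic point of the fibre at
  `b'` with the local ring of `B' × X_0` at the generic point of `{b'} × X_0` -/
  iso : LocRing b'.toRingHom (I.map (MvPolynomial.map (algebraMap k[X] R'))) ≃ₐ[R']
    ConstRing R' b' K₀

section Example

variable {R : Type u} [CommRing R]

/-- first equation, homogeneous form of `((1 + s x_2) ^ 3 - 1) / s = x_0 ^ 3` -/
noncomputable def G1 (s : R) : MvPolynomial (Fin 6) R :=
  X 0 ^ 3 - (3 * X 2 * X 5 ^ 2 + 3 * C s * X 2 ^ 2 * X 5 + C s ^ 2 * X 2 ^ 3)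

/-- second equation, homogeneous form of `x_1 ^ 3 + x_3 ^ 3 - 1 = s x_4` -/
noncomputable def G2 (s : R) : MvPolynomial (Fin 6) R :=
  X 1 ^ 3 + X 3 ^ 3 - X 5 ^ 3 - C s * X 4 * X 5 ^ 2

/-- the ideal of the family -/
noncomputable def J (s : R) : Ideal (MvPolynomial (Fin 6) R) := Ideal.span {G1 s, G2 s}

lemma map_J {S : Type u} [CommRing S] (f : R →+* S) (s : R) :
    (J s).map (MvPolynomial.map f) = J (f s) := by
  unfold J
  rw [Ideal.map_span, Set.image_pair]
  congr 2
  · simp [G1]
  · simp [G2]

end Example

end Pool.Agent.R832.BT
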