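import Pool.Agent.R832.BT.Ch
import Pool.Agent.R832.BT.Cu

set_option autoImplicit false

namespace Pool.Agent.R832.BT

open Polynomial

universe u v

variable {A : Type u} [CommRing A]

/-- `((1 + s c) ^ 3 - 1) / s` -/
noncomputable def al (s : A) : A[X] := 3 * X + 3 * C s * X ^ 2 + C s ^ 2 * X ^ 3

lemma al_ntd [IsDomain A] (h3 : (3 : A) ≠ 0) (s : A) : (al s).natTrailingDegree = 1 ∧ al s ≠ 0 := by
  have hfac : al s = X * (C 3 + C (3 * s) * X + C (s ^ 2) * X ^ 2) := by
    unfold al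
    rw [map_mul, map_pow, map_ofNat]
    ring
  have h0 : (C 3 + C (3 * s) * X + C (s ^ 2) * X ^ 2 : A[X]).coeff 0 = 3 := by
    simp
  have hne : (C 3 + C (3 * s) * X + C (s ^ 2) * X ^ 2 : A[X]) ≠ 0 := by
    intro h
    rw [h, coeff_zero] at h0
    exact h3 h0.symm
  constructor
  · rw [hfac, natTrailingDegree_mul X_ne_zero hne, natTrailingDegree_X,
      natTrailingDegree_eq_zero.2 (Or.inr (by rw [h0]; exact h3))]
  · rw [hfac]
    exact mul_ne_zero X_ne_zero hne

lemma not_cube [IsDomain A] (h3 : (3 : A) ≠ 0) (s : A) {P Q : A[X]} (hQ : Q ≠ 0)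
    (h : P ^ 3 = al s * Q ^ 3) : False := by
  obtain ⟨h1, h2⟩ := al_ntd h3 s
  have hP : P ≠ 0 := by
    rintro rfl
    rw [zero_pow (by norm_num)] at h
    exact mul_ne_zero h2 (pow_ne_zero 3 hQ) h.symm
  have h4 := congrArg natTrailingDegree h
  rw [pow_succ, pow_two, pow_succ, pow_two, natTrailingDegree_mul (mul_ne_zero hP hP) hP,
    natTrailingDegree_mul hP hP, natTrailingDegree_mul h2 (mul_ne_zero (mul_ne_zero hQ hQ) hQ),
    natTrailingDegree_mul (mul_ne_zero hQ hQ) hQ, natTrailingDegree_mul hQ hQ, h1] at h4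
  omega

/-- the equation of the curve over `A[c]` -/
noncomputable def pol (s : A) : A[X][X] := X ^ 3 + C (-al s)

lemma pol_monic (s : A) : (pol s).Monic := by
  unfold pol
  nontriviality A
  exact monic_X_pow_add_C _ (by norm_num)

/-- the coordinate ring of the affine curve -/
abbrev Cv (s : A) : Type u := AdjoinRoot (pol s)

lemma exists_field [IsDomain A] (h3 : (3 : A) ≠ 0) (s : A) :
    ∃ (F : Type u) (_ : Field F) (j : Cv s →+* F), Function.Injective j := by
  let L := FractionRing A[X]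
  let φ : A[X] →+* L := algebraMap A[X] L
  have hφ : Function.Injective φ := IsFractionRing.injective A[X] L
  have hirr : Irreducible ((pol s).map φ) := by
    have h1 : (pol s).map φ = X ^ 3 - C (φ (al s)) := by
      unfold pol
      rw [Polynomial.map_add, Polynomial.map_pow, map_X, map_C, map_neg, map_neg, sub_eq_add_neg]
    rw [h1]
    apply X_pow_sub_C_irreducible_of_prime Nat.prime_three
    intro b hb
    obtain ⟨P, Q, hQ, rfl⟩ := IsFractionRing.div_surjective (A := A[X]) b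
    have hQ0 : Q ≠ 0 := nonZeroDivisors.ne_zero hQ
    have hQ1 : φ Q ≠ 0 := (map_ne_zero_iff φ hφ).2 hQ0
    apply not_cube h3 s hQ0 (P := P)
    apply hφ
    rw [map_pow, map_mul, map_pow, ← hb]
    change (φ P) ^ 3 = (φ P / φ Q) ^ 3 * (φ Q) ^ 3
    rw [div_pow, div_mul_cancel₀ _ (pow_ne_zero 3 hQ1)]
  have : Fact (Irreducible ((pol s).map φ)) := ⟨hirr⟩
  let F := AdjoinRoot ((pol s).map φ)
  have hc : (pol s).eval₂ ((AdjoinRoot.of ((pol s).map φ)).comp φ)
      (AdjoinRoot.root ((pol s).map φ)) = 0 := by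
    rw [← eval₂_map]
    exact AdjoinRoot.eval₂_root _
  refine ⟨F, inferInstance, AdjoinRoot.lift _ _ hc, ?_⟩
  rw [injective_iff_map_eq_zero]
  intro z hz
  obtain ⟨q, rfl⟩ := AdjoinRoot.mk_surjective z
  rw [AdjoinRoot.lift_mk, ← eval₂_map] at hz
  have h2 : AdjoinRoot.mk ((pol s).map φ) (q.map φ) = 0 := by
    rw [← AdjoinRoot.aeval_eq, aeval_def]
    exact hz
  rw [AdjoinRoot.mk_eq_zero] at h2 ⊢
  exact (Polynomial.map_dvd_map φ hφ (pol_monic s)).1 h2

/-- constants of the curve -/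
noncomputable def kp (s : A) : A →+* Cv s := (AdjoinRoot.of (pol s)).comp C

lemma cv_rel (s : A) : (AdjoinRoot.root (pol s)) ^ 3 = 3 * AdjoinRoot.of (pol s) X
    + 3 * kp s s * (AdjoinRoot.of (pol s) X) ^ 2 + (kp s s) ^ 2 * (AdjoinRoot.of (pol s) X) ^ 3 := by
  have h : (AdjoinRoot.root (pol s)) ^ 3 + AdjoinRoot.of (pol s) (-al s) = 0 := cube_root _
  have h2 : AdjoinRoot.of (pol s) (-al s) = -(3 * AdjoinRoot.of (pol s) X
    + 3 * kp s s * (AdjoinRoot.of (pol s) X) ^ 2
    + (kp s s) ^ 2 * (AdjoinRoot.of (pol s) X) ^ 3) := by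
    rw [map_neg, al, map_add, map_add, map_mul, map_mul, map_mul, map_mul, map_pow, map_pow,
      map_pow, map_ofNat]
    rfl
  rw [h2] at h
  exact eq_of_sub_eq_zero ((sub_eq_add_neg _ _).trans h)

/-- the section of the family through a point -/
noncomputable def sg (s x y ξ : A) (h : x ^ 3 + y ^ 3 = 1) : Chart (J s) →+* Cv s :=
  chartHom s (kp s) (AdjoinRoot.root (pol s)) (kp s (x + s * ξ)) (AdjoinRoot.of (pol s) X)
    (kp s y) (kp s (3 * x ^ 2 * ξ + 3 * x * s * ξ ^ 2 + s ^ 2 * ξ ^ 3)) (cv_rel s) (by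
      rw [← map_pow, ← map_pow, ← map_add, ← map_mul, ← map_one (kp s), ← map_sub]
      congr 1
      linear_combination h)

section Red

variable {k : Type u} [Field k] (β : A →+* k) (s : A) (hs : β s = 0) (h3 : (3 : k) ≠ 0)

/-- the reduction of the curve at the special point is the affine line -/
noncomputable def i3 : A[X] →+* k[X] := eval₂RingHom (C.comp β) (C 3⁻¹ * X ^ 3)

include hs h3 in
lemma cond3 : (pol s).eval₂ (i3 β) (X : k[X]) = 0 := by
  apply lift_cond
  have hX : i3 β X = C 3⁻¹ * X ^ 3 := by simp [i3]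
  have hC : ∀ r, i3 β (C r) = C (β r) := by intro r; simp [i3]
  have e3 : (3 : k[X]) * C 3⁻¹ = 1 := by
    rw [← map_ofNat C 3, ← C_mul, mul_inv_cancel₀ h3, C_1]
  rw [al, map_neg, map_add, map_add, map_mul, map_mul, map_mul, map_mul, map_pow, map_pow, map_pow,
    map_ofNat, hX, hC, hs, C_0]
  linear_combination (-X ^ 3) * e3

/-- reduction of the curve -/
noncomputable def rd : Cv s →+* k[X] := AdjoinRoot.lift (i3 β) X (cond3 β s hs h3)

lemma rd_root : rd β s hs h3 (AdjoinRoot.root (pol s)) = X := AdjoinRoot.lift_root _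

lemma rd_X : rd β s hs h3 (AdjoinRoot.of (pol s) X) = C 3⁻¹ * X ^ 3 := by
  unfold rd
  rw [AdjoinRoot.lift_of]
  simp [i3]

lemma rd_kp (r : A) : rd β s hs h3 (kp s r) = C (β r) := by
  unfold rd kp
  rw [RingHom.comp_apply, AdjoinRoot.lift_of]
  simp [i3]

end Red

section Pt

variable {k : Type u} [Field k] (h3 : (3 : k) ≠ 0) (x y ξ : k) (h : x ^ 3 + y ^ 3 = 1)

/-- restriction of functions on the special fibre to the line through a point -/
noncomputable def pt : Chart (J (0 : k)) →+* k[X] :=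
  chartHom 0 C X (C x) (C 3⁻¹ * X ^ 3) (C y) (C (3 * x ^ 2 * ξ)) (by
    have e3 : (3 : k[X]) * C 3⁻¹ = 1 := by
      rw [← map_ofNat C 3, ← C_mul, mul_inv_cancel₀ h3, C_1]
    rw [map_zero]
    linear_combination (-X ^ 3) * e3) (by
    rw [map_zero, ← C_pow, ← C_pow, ← C_add, h, C_1]
    ring)

/-- reduction of the chart -/
noncomputable def rc (β : A →+* k) (s : A) (hs : β s = 0) : Chart (J s) →+* Chart (J (0 : k)) :=
  chartHom s ((cn 0).comp β) (vr 0 0) (vr 0 1) (vr 0 2) (vr 0 3) (vr 0 4) (by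
    have := rel1 (0 : k)
    rw [RingHom.comp_apply, hs]
    exact this) (by
    have := rel2 (0 : k)
    rw [RingHom.comp_apply, hs]
    exact this)

lemma rd_sg (β : A →+* k) (s : A) (hs : β s = 0) (x' y' ξ' : A) (h' : x' ^ 3 + y' ^ 3 = 1)
    (hx : β x' = x) (hy : β y' = y) (hξ : β ξ' = ξ) (z : Chart (J s)) :
    rd β s hs h3 (sg s x' y' ξ' h' z) = pt h3 x y ξ h (rc β s hs z) := by
  have : (rd β s hs h3).comp (sg s x' y' ξ' h') = (pt h3 x y ξ h).comp (rc β s hs) := by
    apply chart_ext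
    · intro r
      rw [RingHom.comp_apply, RingHom.comp_apply, sg, chartHom_cn, rd_kp, rc, chartHom_cn,
        RingHom.comp_apply, pt, chartHom_cn]
    · intro i
      rw [RingHom.comp_apply, RingHom.comp_apply, sg, chartHom_vr, rc, chartHom_vr]
      fin_cases i
      · change rd β s hs h3 (AdjoinRoot.root (pol s)) = pt h3 x y ξ h (vr 0 0)
        rw [rd_root, pt, chartHom_vr]; rfl
      · change rd β s hs h3 (kp s (x' + s * ξ')) = pt h3 x y ξ h (vr 0 1)
        rw [rd_kp, pt, chartHom_vr, map_add, map_mul, hs, zero_mul, add_zero, hx]; rfl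
      · change rd β s hs h3 (AdjoinRoot.of (pol s) X) = pt h3 x y ξ h (vr 0 2)
        rw [rd_X, pt, chartHom_vr]; rfl
      · change rd β s hs h3 (kp s y') = pt h3 x y ξ h (vr 0 3)
        rw [rd_kp, pt, chartHom_vr, hy]; rfl
      · change rd β s hs h3 (kp s (3 * x' ^ 2 * ξ' + 3 * x' * s * ξ' ^ 2 + s ^ 2 * ξ' ^ 3))
          = pt h3 x y ξ h (vr 0 4)
        rw [rd_kp, pt, chartHom_vr]
        change _ = C (3 * x ^ 2 * ξ)
        have e : β (3 * x' ^ 2 * ξ' + 3 * x' * s * ξ' ^ 2 + s ^ 2 * ξ' ^ 3) = 3 * x ^ 2 * ξ := by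
          simp only [map_add, map_mul, map_pow, map_ofNat, hs, hx, hξ]
          ring
        rw [e]
      · change rd β s hs h3 1 = pt h3 x y ξ h 1
        rw [map_one, map_one]
  rw [← RingHom.comp_apply, this, RingHom.comp_apply]

end Pt

end Pool.Agent.R832.BT
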